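import Pool.Agent.Y163.SL.RegD

/-!
Equigenerated complete intersections with the monomial basis condition: the strong Lefschetz property
for the class is equivalent to the weak one.
-/

set_option autoImplicit false

open MvPolynomial

namespace Pool.Agent.Results.MP_f179e6_ag.DoubleWeak

variable {K : Type} [Field K] {n : ℕ}

/-- The class of the problem: `f_1, …, f_n` are forms of degree `d` in `n` variables, `f_i` is a
nonzerodivisor modulo `(f_1, …, f_(i-1))` for all `i`, and the classes of the monomials with exponents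
less than `d` form a basis of `K[x_1, …, x_n] / (f_1, …, f_n)`. -/
def Cls (d : ℕ) (f : Fin n → MvPolynomial (Fin n) K) : Prop :=
  (∀ i, (f i).IsHomogeneous d) ∧
  (∀ i, ∀ h : MvPolynomial (Fin n) K, f i * h ∈ Ideal.span (f '' {j | j < i}) →
    h ∈ Ideal.span (f '' {j | j < i})) ∧
  LinearIndependent K (fun a : Fin n → Fin d =>
      Ideal.Quotient.mk (Ideal.span (Set.range f)) (∏ j, X j ^ (a j : ℕ))) ∧
    Submodule.span K (Set.range (fun a : Fin n → Fin d =>
      Ideal.Quotient.mk (Ideal.span (Set.range f)) (∏ j, X j ^ (a j : ℕ)))) = ⊤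

/-- `K[x_1, …, x_n] / (f_1, …, f_n)` has the weak Lefschetz property. -/
def WLP (f : Fin n → MvPolynomial (Fin n) K) : Prop :=
  ∃ l : MvPolynomial (Fin n) K, l.IsHomogeneous 1 ∧ ∀ i : ℕ,
    (∀ g ∈ homogeneousSubmodule (Fin n) K i, l * g ∈ Ideal.span (Set.range f) →
      g ∈ Ideal.span (Set.range f)) ∨
    ∀ h ∈ homogeneousSubmodule (Fin n) K (i + 1), ∃ g ∈ homogeneousSubmodule (Fin n) K i,
      h - l * g ∈ Ideal.span (Set.range f)

/-- `K[x_1, …, x_n] / (f_1, …, f_n)` has the strong Lefschetz property. -/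
def SLP (f : Fin n → MvPolynomial (Fin n) K) : Prop :=
  ∃ l : MvPolynomial (Fin n) K, l.IsHomogeneous 1 ∧ ∀ i k : ℕ,
    (∀ g ∈ homogeneousSubmodule (Fin n) K i, l ^ k * g ∈ Ideal.span (Set.range f) →
      g ∈ Ideal.span (Set.range f)) ∨
    ∀ h ∈ homogeneousSubmodule (Fin n) K (i + k), ∃ g ∈ homogeneousSubmodule (Fin n) K i,
      h - l ^ k * g ∈ Ideal.span (Set.range f)

/-- `f_1(x), …, f_n(x), f_1(y), …, f_n(y)` in `2 n` variables. -/
noncomputable def double (f : Fin n → MvPolynomial (Fin n) K) :
    Fin (n + n) → MvPolynomial (Fin (n + n)) K :=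
  Fin.append (fun i => rename (Fin.castAdd n) (f i)) (fun i => rename (Fin.natAdd n) (f i))

lemma ci {d : ℕ} (hd : 1 ≤ d) {f : Fin n → MvPolynomial (Fin n) K} (h : Cls d f) :
    Pool.Agent.Y163.SL.CI f (fun _ => d) := ⟨h.1, fun _ => hd, h.2.1⟩

lemma cls_double {d : ℕ} (hd : 1 ≤ d) {f : Fin n → MvPolynomial (Fin n) K} (h : Cls d f) :
    Cls d (double f) := by
  have h1 := (ci hd h).dbl
  refine ⟨fun i => ?_, h1.hreg, Pool.Agent.Y163.SL.MB.dbl (ci hd h) h.2.2⟩
  have h2 := h1.hf i
  have h3 : Pool.Agent.Y163.SL.de (fun _ : Fin n => d) i = d := by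
    induction i using Fin.addCases with
    | left j => rw [Pool.Agent.Y163.SL.de, Fin.append_left]
    | right j => rw [Pool.Agent.Y163.SL.de, Fin.append_right]
  rw [h3] at h2
  exact h2

lemma main [CharZero K] {d : ℕ} (hd : 1 ≤ d) {f : Fin n → MvPolynomial (Fin n) K} (h : Cls d f) :
    SLP f ↔ WLP (double f) := Pool.Agent.Y163.SL.slp_wlp' (ci hd h)

/-- **Equigenerated complete intersections with the monomial basis condition.**

Let `K` be a field of characteristic zero and `d ≥ 1`.

(1) If `f_1, …, f_n` is a complete intersection of uniform degree `d` with the monomial basis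
condition, then so is `f_1(x), …, f_n(x), f_1(y), …, f_n(y)` (in `2 n` variables), and
`K[x] / (f)` has the strong Lefschetz property if and only if `K[x, y] / (f(x), f(y))` has the weak
Lefschetz property.

(2) All complete intersections of uniform degree `d` over `K` with the monomial basis condition (in
any number of variables) have the strong Lefschetz property if and only if they all have the weak
Lefschetz property. -/
theorem result (K : Type) [Field K] [CharZero K] (d : ℕ) (hd : 1 ≤ d) :
    (∀ (n : ℕ) (f : Fin n → MvPolynomial (Fin n) K), Cls d f →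
      Cls d (double f) ∧ (SLP f ↔ WLP (double f))) ∧
    ((∀ (n : ℕ) (f : Fin n → MvPolynomial (Fin n) K), Cls d f → SLP f) ↔
      ∀ (n : ℕ) (f : Fin n → MvPolynomial (Fin n) K), Cls d f → WLP f) := by
  refine ⟨fun n f h => ⟨cls_double hd h, main hd h⟩, fun H n f h => ?_, fun H n f h => ?_⟩
  · obtain ⟨l, hl, h1⟩ := H n f h
    refine ⟨l, hl, fun i => ?_⟩
    have h2 := h1 i 1
    simpa only [pow_one] using h2
  · exact (main hd h).2 (H (n + n) (double f) (cls_double hd h))

end Pool.Agent.Results.MP_f179e6_ag.DoubleWeak
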