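import Pool.Agent.Y204.LF.Range2

/-!
Complete intersections of uniform degree `d` in at least four variables: the range in which all maps
`ℓ ^ k : A_i → A_{i+k}` have maximal rank.
-/

open MvPolynomial

namespace Pool.Agent.Results.MP_f179e6_ag.UniformDegreeRange

/-- Let `K` be a field of characteristic zero and `A = K[x_1, …, x_m] / (f_1, …, f_m)` a complete
intersection of uniform degree `d` in `m = n + 4 ≥ 4` variables (`f_1, …, f_m` is a regular sequence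
of forms of degree `d`; the monomial basis condition is not needed), of socle degree `m (d - 1)`.
Suppose that

* `m ≥ 5`, `d ≥ 3` and `M ≤ 3 d / 2`, or
* `m ≥ 4`, `d ≥ 4` and `M ≤ d + 1`, or
* `m ≥ 6`, `d = 2` and `M ≤ 3`.

Then there is a linear form `ℓ` such that for all `i, k` the map `ℓ ^ k : A_i → A_{i+k}` is
injective if `i + k ≤ M` and surjective if `i ≥ m (d - 1) - M`.

For six quadrics, `M = 3` is half of the socle degree; hence (second statement) every complete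
intersection of six quadrics has the weak Lefschetz property. -/
theorem result (K : Type*) [Field K] [CharZero K] (n d : ℕ)
    (f : Fin (n + 4) → MvPolynomial (Fin (n + 4)) K) (hf : ∀ i, (f i).IsHomogeneous d)
    (hreg : RingTheory.Sequence.IsRegular (MvPolynomial (Fin (n + 4)) K) (List.ofFn f)) :
    (∀ M : ℕ, (5 ≤ n + 4 ∧ 3 ≤ d ∧ 2 * M ≤ 3 * d) ∨ (4 ≤ d ∧ M ≤ d + 1) ∨
        (6 ≤ n + 4 ∧ d = 2 ∧ M ≤ 3) →
      ∃ ℓ : MvPolynomial (Fin (n + 4)) K, ℓ.IsHomogeneous 1 ∧ ∀ i k : ℕ,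
        (i + k ≤ M → ∀ p : MvPolynomial (Fin (n + 4)) K, p.IsHomogeneous i →
          ℓ ^ k * p ∈ Ideal.span (Set.range f) → p ∈ Ideal.span (Set.range f)) ∧
        ((n + 4) * (d - 1) ≤ i + M →
          ∀ q : MvPolynomial (Fin (n + 4)) K, q.IsHomogeneous (i + k) →
          ∃ p : MvPolynomial (Fin (n + 4)) K, p.IsHomogeneous i ∧
            q - ℓ ^ k * p ∈ Ideal.span (Set.range f))) ∧
    (n + 4 = 6 → d = 2 →
      ∃ ℓ : MvPolynomial (Fin (n + 4)) K, ℓ.IsHomogeneous 1 ∧ ∀ i : ℕ,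
        (∀ p : MvPolynomial (Fin (n + 4)) K, p.IsHomogeneous i →
          ℓ * p ∈ Ideal.span (Set.range f) → p ∈ Ideal.span (Set.range f)) ∨
        (∀ q : MvPolynomial (Fin (n + 4)) K, q.IsHomogeneous (i + 1) →
          ∃ p : MvPolynomial (Fin (n + 4)) K, p.IsHomogeneous i ∧
            q - ℓ * p ∈ Ideal.span (Set.range f))) := by
  have hreg' := H503R3.QCI.reg_of_isWeaklyRegular hreg.toIsWeaklyRegular
  have h1 : ∀ M : ℕ, (5 ≤ n + 4 ∧ 3 ≤ d ∧ 2 * M ≤ 3 * d) ∨ (4 ≤ d ∧ M ≤ d + 1) ∨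
        (6 ≤ n + 4 ∧ d = 2 ∧ M ≤ 3) →
      ∃ ℓ : MvPolynomial (Fin (n + 4)) K, ℓ.IsHomogeneous 1 ∧ ∀ i k : ℕ,
        (i + k ≤ M → ∀ p : MvPolynomial (Fin (n + 4)) K, p.IsHomogeneous i →
          ℓ ^ k * p ∈ Ideal.span (Set.range f) → p ∈ Ideal.span (Set.range f)) ∧
        ((n + 4) * (d - 1) ≤ i + M →
          ∀ q : MvPolynomial (Fin (n + 4)) K, q.IsHomogeneous (i + k) →
          ∃ p : MvPolynomial (Fin (n + 4)) K, p.IsHomogeneous i ∧
            q - ℓ ^ k * p ∈ Ideal.span (Set.range f)) := by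
    intro M hM
    have hd : 2 ≤ d := by omega
    have hs : ∑ i : Fin (n + 3), (d - 1) = (n + 3) * (d - 1) := by
      rw [Finset.sum_const, Finset.card_univ, Fintype.card_fin, smul_eq_mul]
    have hs1 : ∑ i : Fin (n + 4), (d - 1) = (n + 4) * (d - 1) := by
      rw [Finset.sum_const, Finset.card_univ, Fintype.card_fin, smul_eq_mul]
    have hs3 : 3 * (d - 1) ≤ (n + 3) * (d - 1) := Nat.mul_le_mul_right _ (by omega)
    obtain ⟨M', hNM, hM'⟩ : ∃ M', M ≤ M' ∧ Pool.Agent.Y204.LF.Num (n + 3) d d d d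
        (∑ i : Fin (n + 3), (d - 1)) M' := by
      rcases hM with ⟨h, h', h''⟩ | ⟨h, h'⟩ | ⟨h, h', h''⟩
      · exact ⟨M, le_rfl, Or.inr (Or.inr (Or.inr ⟨by omega, by omega, h'⟩))⟩
      · refine ⟨d + 1, h', Or.inr (Or.inr (Or.inl ⟨rfl, ?_, by omega⟩))⟩
        rw [hs]
        omega
      · refine ⟨3, h'', Or.inr (Or.inr (Or.inl ⟨by omega, ?_, by omega⟩))⟩
        rw [hs, h']
        omega
    obtain ⟨ℓ, hℓ, h2⟩ := Pool.Agent.Y204.LF.range_main (N := n + 3) (by omega) (f := f)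
      (e := fun _ => d) hf (fun _ => by omega) (fun _ _ _ => le_rfl) hreg' hM'
    refine ⟨ℓ, hℓ, fun i k => ⟨fun hi => (h2 i k).1 (by omega), fun hi => (h2 i k).2 ?_⟩⟩
    rw [hs1]
    omega
  refine ⟨h1, ?_⟩
  intro hn hd
  obtain ⟨ℓ, hℓ, h2⟩ := h1 3 (Or.inr (Or.inr ⟨by omega, hd, le_rfl⟩))
  refine ⟨ℓ, hℓ, fun i => ?_⟩
  rcases Nat.lt_or_ge i 3 with hi | hi
  · left
    intro g hg h
    refine (h2 i 1).1 (by omega) g hg ?_
    rwa [pow_one]
  · right
    intro h hh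
    obtain ⟨g, hg, h5⟩ := (h2 i 1).2 (by rw [hn, hd]; omega) h hh
    rw [pow_one] at h5
    exact ⟨g, hg, h5⟩

end Pool.Agent.Results.MP_f179e6_ag.UniformDegreeRange
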